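import Pool.Agent.MP_db5b97_nt.H85.Spec

/-! Outside a sparse set of primes the sublattices of a permutation lattice have no odd
cohomology. -/

namespace Pool.Agent.MP_db5b97_nt.H57

open H85 Polynomial Module TensorProduct

namespace E1

section Gen

variable {R G A A' : Type} [CommRing R] [Group G] [AddCommGroup A] [Module R A] [AddCommGroup A']
  [Module R A'] {ρ : Representation R G A} {ρ' : Representation R G A'} {σ : G} {p : ℕ}

/-- the norm operator -/
noncomputable def nn (ρ : Representation R G A) (σ : G) (p : ℕ) : End R A :=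
  ∑ i ∈ Finset.range p, ρ (σ ^ i)

/-- the sum of the conjugates of the norm operator -/
noncomputable def zz [Fintype G] (ρ : Representation R G A) (σ : G) (p : ℕ) : End R A :=
  ∑ g, ρ g * nn ρ σ p * ρ g⁻¹

/-- the fixed vectors -/
def fx (ρ : Representation R G A) (σ : G) : Submodule R A := LinearMap.ker (ρ σ - 1)

theorem mem_fx {v : A} : v ∈ fx ρ σ ↔ ρ σ v = v := by simp [fx, sub_eq_zero]

theorem nn_int (ι : A' →ₗ[R] A) (h : ∀ g v, ι (ρ' g v) = ρ g (ι v)) (v : A') :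
    ι (nn ρ' σ p v) = nn ρ σ p (ι v) := by
  simp only [nn, LinearMap.sum_apply, map_sum, h]

theorem zz_int [Fintype G] (ι : A' →ₗ[R] A) (h : ∀ g v, ι (ρ' g v) = ρ g (ι v)) (v : A') :
    ι (zz ρ' σ p v) = zz ρ σ p (ι v) := by
  simp only [zz, LinearMap.sum_apply, map_sum, End.mul_apply, h, nn_int ι h]

theorem aeval_int {T : End R A} {T' : End R A'} (ι : A' →ₗ[R] A) (h : ∀ v, ι (T' v) = T (ι v))
    (f : R[X]) (v : A') : ι (aeval T' f v) = aeval T f (ι v) := by
  induction f using Polynomial.induction_on generalizing v with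
  | C a => simp
  | add f g hf hg => simp [hf, hg]
  | monomial n a hn =>
    rw [pow_succ, ← mul_assoc, map_mul, map_mul (aeval T), aeval_X, aeval_X, End.mul_apply,
      End.mul_apply, hn, h]

theorem nn_mem (h : ρ (σ ^ p) = 1) (v : A) : nn ρ σ p v ∈ fx ρ σ := by
  have e := (Finset.sum_range_succ' (fun i => ρ (σ ^ i) v) p).symm.trans
    (Finset.sum_range_succ (fun i => ρ (σ ^ i) v) p)
  simp only [h, pow_zero, map_one, add_left_inj] at e
  rw [mem_fx, nn, LinearMap.sum_apply, map_sum, ← e]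
  exact Finset.sum_congr rfl fun i _ => by rw [pow_succ', map_mul, End.mul_apply]

theorem nn_fx {v : A} (h : v ∈ fx ρ σ) : nn ρ σ p v = (p : R) • v := by
  have e : ∀ i : ℕ, ρ (σ ^ i) v = v := fun i => by
    induction i with
    | zero => simp
    | succ i ih => rw [pow_succ, map_mul, End.mul_apply, mem_fx.1 h, ih]
  rw [nn, LinearMap.sum_apply, Finset.sum_congr rfl fun i _ => e i, Finset.sum_const,
    Finset.card_range, Nat.cast_smul_eq_nsmul]

theorem nn_df (h : ρ (σ ^ p) = 1) (v : A) : nn ρ σ p (ρ σ v - v) = 0 := by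
  rw [map_sub, sub_eq_zero, ← mem_fx.1 (nn_mem h v)]
  simp only [nn, LinearMap.sum_apply, map_sum, ← End.mul_apply, ← map_mul, pow_mul_comm']

theorem tel (n : ℕ) (u : A) : ρ σ (∑ i ∈ Finset.range n, i • ρ (σ ^ i) u) -
    ∑ i ∈ Finset.range n, i • ρ (σ ^ i) u = n • ρ (σ ^ n) u - ρ σ (nn ρ σ n u) := by
  induction n with
  | zero => simp [nn]
  | succ n ih =>
    have e : ρ σ (ρ (σ ^ n) u) = ρ (σ ^ (n + 1)) u := by rw [pow_succ', map_mul, End.mul_apply]
    rw [nn, Finset.sum_range_succ, Finset.sum_range_succ, LinearMap.add_apply, map_add, map_add,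
      map_nsmul, e, ← nn, add_smul, one_smul, eq_add_of_sub_eq ih]
    abel

theorem tel0 (h : ρ (σ ^ p) = 1) {u : A} (hu : nn ρ σ p u = 0) :
    ∃ w, ρ σ w - w = (p : R) • u :=
  ⟨_, by rw [tel p u, h, hu, map_zero, sub_zero, Nat.cast_smul_eq_nsmul]; rfl⟩

theorem dvd_of_repr {ι : Type} [Fintype ι] (b : Basis ι R A) (v : A) (r : R)
    (h : ∀ i, r ∣ b.repr v i) : ∃ u, v = r • u := by
  choose c hc using h
  exact ⟨b.equivFun.symm c, b.ext_elem fun i => by
    rw [hc, map_smul, Finsupp.smul_apply, ← b.equivFun_apply, LinearEquiv.apply_symm_apply,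
      smul_eq_mul]⟩

theorem zz_comm [Fintype G] (g : G) (v : A) : zz ρ σ p (ρ g v) = ρ g (zz ρ σ p v) := by
  simp only [zz, LinearMap.sum_apply, map_sum, End.mul_apply]
  refine (Fintype.sum_equiv (Equiv.mulLeft g) _ _ fun k => ?_).symm
  simp only [Equiv.coe_mulLeft, mul_inv_rev, map_mul, End.mul_apply, Representation.inv_self_apply]

theorem eig_inv [Fintype G] (w : R) (g : G) :
    End.eigenspace (zz ρ σ p) w ≤ (End.eigenspace (zz ρ σ p) w).comap (ρ g) := fun v hv => by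
  rw [Submodule.mem_comap, End.mem_eigenspace_iff, zz_comm, End.mem_eigenspace_iff.1 hv, map_smul]

theorem sub_one {W : Submodule R A} (hW : ∀ g, W ≤ W.comap (ρ g)) {g : G} (h : ρ g = 1) :
    ρ.subrepresentation W hW g = 1 :=
  LinearMap.ext fun v => Subtype.ext (show ρ g v = v by rw [h]; rfl)

theorem tr_zz [Fintype G] [IsDomain R] [IsPrincipalIdealRing R] [Module.Finite R A]
    [Module.Free R A] (h : ρ (σ ^ p) = 1) :
    LinearMap.trace R A (zz ρ σ p) = Fintype.card G * (p * finrank R (fx ρ σ)) := by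
  have e := LinearMap.trace_restrict_eq_of_forall_mem (fx ρ σ) (nn ρ σ p) (nn_mem h)
  rw [show (nn ρ σ p).restrict (fun x _ => nn_mem h x) = (p : R) • LinearMap.id from
    LinearMap.ext fun v => Subtype.ext (nn_fx v.2), map_smul, LinearMap.trace_id, smul_eq_mul] at e
  rw [e, zz, map_sum, Finset.sum_congr rfl fun g _ => (show LinearMap.trace R A
    (ρ g * nn ρ σ p * ρ g⁻¹) = LinearMap.trace R A (nn ρ σ p) by
      rw [LinearMap.trace_mul_cycle, ← map_mul, inv_mul_cancel, map_one, one_mul])]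
  simp

theorem scal [Fintype G] [IsDomain R] [IsPrincipalIdealRing R] [Module.Finite R A]
    [Module.Free R A] (h : ρ (σ ^ p) = 1) {w : R} (hw : ∀ v, zz ρ σ p v = w • v) :
    w * finrank R A = Fintype.card G * (p * finrank R (fx ρ σ)) := by
  rw [← tr_zz h, show zz ρ σ p = w • LinearMap.id from LinearMap.ext hw, map_smul,
    LinearMap.trace_id, smul_eq_mul]

/-- extension of scalars -/
noncomputable def bc (S : Type) [CommRing S] [Algebra R S] (ρ : Representation R G A) :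
    Representation S G (S ⊗[R] A) :=
  (End.baseChangeHom R S A : End R A →* End S (S ⊗[R] A)).comp ρ

variable {S : Type} [CommRing S] [Algebra R S]

theorem bc_apply (g : G) : bc S ρ g = End.baseChangeHom R S A (ρ g) := rfl

theorem nn_bc : nn (bc S ρ) σ p = End.baseChangeHom R S A (nn ρ σ p) := by
  simp only [nn, bc_apply, map_sum]

theorem zz_bc [Fintype G] : zz (bc S ρ) σ p = (zz ρ σ p).baseChange S :=
  show _ = End.baseChangeHom R S A _ by simp only [zz, bc_apply, nn_bc, map_sum, map_mul]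

theorem bc_one {g : G} (h : ρ g = 1) : bc S ρ g = 1 := by rw [bc_apply, h, map_one]

theorem aeval_bc {T : End R A} {f : R[X]} (h : aeval T f = 0) :
    aeval (T.baseChange S) (f.map (algebraMap R S)) = 0 := by
  rw [aeval_map_algebraMap]
  exact (aeval_algHom_apply (End.baseChangeHom R S A) T f).trans (by rw [h, map_zero])

end Gen

section Field

variable {K G V : Type} [Field K] [CharZero K] [Group G] [Fintype G] [AddCommGroup V] [Module K V]
  [Module.Finite K V] {ρ : Representation K G V} {σ : G} {p : ℕ}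

theorem eig_rat (h : ρ (σ ^ p) = 1) {w : K} (hw : (zz ρ σ p).HasEigenvalue w) : ∃ q : ℚ, w = q := by
  obtain ⟨a, e⟩ : ∃ a : ℕ, w * finrank K (End.eigenspace (zz ρ σ p) w) = Fintype.card G * (p * a) :=
    ⟨_, scal (sub_one (eig_inv (σ := σ) (p := p) w) h) (w := w) fun v => Subtype.ext
      ((zz_int (Submodule.subtype _) (fun _ _ => rfl) v).trans (End.mem_eigenspace_iff.1 v.2))⟩
  have h0 : (finrank K (End.eigenspace (zz ρ σ p) w) : K) ≠ 0 :=
    Nat.cast_ne_zero.2 fun h0 => hw (Submodule.finrank_eq_zero.1 h0)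
  generalize finrank K (End.eigenspace (zz ρ σ p) w) = d at e h0
  exact ⟨Fintype.card G * (p * a) / d, by push_cast; exact (eq_div_iff h0).2 e⟩

theorem sum_rat (c : ℚ) (s : Multiset K) (h : ∀ w ∈ s, ∃ q : ℚ, c ≤ q ∧ w = q) :
    ∃ q : ℚ, c * s.card ≤ q ∧ s.sum = q := by
  induction s using Multiset.induction_on with
  | empty => exact ⟨0, by simp, by simp⟩
  | cons w s ih =>
    obtain ⟨q, h1, h2⟩ := ih fun v hv => h v (Multiset.mem_cons_of_mem hv)
    obtain ⟨r, h3, h4⟩ := h w (Multiset.mem_cons_self _ _)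
    exact ⟨r + q, by rw [Multiset.card_cons]; push_cast; linarith, by simp [h2, h4]⟩

omit [Module.Finite K V] in
theorem star [IsAlgClosed K] {R A : Type} [CommRing R] [IsDomain R] [IsPrincipalIdealRing R]
    [Algebra R K] [AddCommGroup A] [Module R A] [Module.Finite R A] [Module.Free R A]
    {ρ : Representation R G A} (h : ρ (σ ^ p) = 1) {f : R[X]} (h0 : aeval (zz ρ σ p) f = 0)
    (hf : ∀ w : K, aeval w f = 0 → ∃ q : ℚ, (Fintype.card G : ℚ) ≤ q ∧ w = q) :
    finrank R A ≤ p * finrank R (fx ρ σ) := by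
  have sp := IsAlgClosed.splits ((zz ρ σ p).baseChange K).charpoly
  obtain ⟨q, h1, h2⟩ := sum_rat (Fintype.card G) ((zz ρ σ p).baseChange K).charpoly.roots
    fun w hw => by
      obtain ⟨v, hv⟩ := ((End.hasEigenvalue_iff_isRoot_charpoly _ _).2
        (isRoot_of_mem_roots hw)).exists_hasEigenvector
      have e := End.aeval_apply_of_hasEigenvector (p := f.map (algebraMap R K)) hv
      rw [aeval_bc h0, eval_map_algebraMap] at e
      exact hf w ((smul_eq_zero.1 e.symm).resolve_right hv.2)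
  rw [← End.trace_eq_sum_roots_charpoly_of_splits sp, LinearMap.trace_baseChange, tr_zz h] at h2
  rw [← sp.natDegree_eq_card_roots, LinearMap.charpoly_natDegree, finrank_baseChange] at h1
  have h3 : ((Fintype.card G * (p * finrank R (fx ρ σ)) : ℕ) : ℚ) = q :=
    Rat.cast_injective (α := K) (by rw [← h2]; simp)
  rw [← h3] at h1
  exact Nat.le_of_mul_le_mul_left (by exact_mod_cast h1) Fintype.card_pos

end Field

section Count

variable {G V : Type} [Group G] [Fintype G] [AddCommGroup V] [Module ℚ V] [Module.Finite ℚ V]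
  {ρ : Representation ℚ G V} {σ : G} {p : ℕ}

omit [Module.Finite ℚ V] in
theorem dvd_rank (hp : p.Prime) (T : End ℚ V) (h : aeval T (cyclotomic p ℚ) = 0) :
    p - 1 ∣ finrank ℚ V := by
  have : Fact (Irreducible (cyclotomic p ℚ)) := ⟨cyclotomic.irreducible_rat hp.pos⟩
  let ψ : AdjoinRoot (cyclotomic p ℚ) →ₐ[ℚ] End ℚ V :=
    Ideal.Quotient.liftₐ (Ideal.span {cyclotomic p ℚ}) (aeval T) fun a ha => by
      obtain ⟨b, rfl⟩ := Ideal.mem_span_singleton.1 ha
      rw [map_mul, h, zero_mul]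
  let _ : Module (AdjoinRoot (cyclotomic p ℚ)) V := Module.compHom V ψ.toRingHom
  have : IsScalarTower ℚ (AdjoinRoot (cyclotomic p ℚ)) V :=
    ⟨fun q l v => show ψ (q • l) v = q • ψ l v by rw [map_smul]; rfl⟩
  have e : finrank ℚ (AdjoinRoot (cyclotomic p ℚ)) = p - 1 :=
    finrank_quotient_span_eq_natDegree.trans (by rw [natDegree_cyclotomic, Nat.totient_prime hp])
  rw [← finrank_mul_finrank ℚ (AdjoinRoot (cyclotomic p ℚ)) V, e]
  exact dvd_mul_right _ _

omit [Fintype G] in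
theorem rank_eq (hp : p.Prime) (h : ρ (σ ^ p) = 1) :
    ∃ b, finrank ℚ V = finrank ℚ (fx ρ σ) + b * (p - 1) := by
  have : Fact p.Prime := ⟨hp⟩
  have e : aeval (ρ σ) (cyclotomic p ℚ) = nn ρ σ p := by
    simp [cyclotomic_prime, nn]
  have hW : ∀ v ∈ LinearMap.ker (nn ρ σ p), ρ σ v ∈ LinearMap.ker (nn ρ σ p) := fun v hv => by
    rw [LinearMap.mem_ker, ← e, ← aeval_int (ρ σ) fun _ => rfl, e, LinearMap.mem_ker.1 hv, map_zero]
  obtain ⟨b, hb⟩ := dvd_rank hp ((ρ σ).restrict hW) (LinearMap.ext fun v => Subtype.ext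
    ((aeval_int (T := ρ σ) (Submodule.subtype _) (fun _ => rfl) _ v).trans (by rw [e]; exact v.2)))
  have hr : LinearMap.range (nn ρ σ p) = fx ρ σ := le_antisymm
    (by rintro _ ⟨v, rfl⟩; exact nn_mem h v) fun v hv => ⟨(p : ℚ)⁻¹ • v, by
      rw [map_smul, nn_fx hv, smul_smul, inv_mul_cancel₀ (Nat.cast_ne_zero.2 hp.ne_zero), one_smul]⟩
  exact ⟨b, by rw [← hr, mul_comm, ← hb, LinearMap.finrank_range_add_finrank_ker]⟩

/-- active primes -/
def Ac (ρ : Representation ℚ G V) (σ : G) (p : ℕ) : Prop :=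
  p.Prime ∧ ρ (σ ^ p) = 1 ∧ ∃ q : ℚ, q < Fintype.card G ∧ ∃ v, v ≠ 0 ∧ zz ρ σ p v = q • v

theorem count (x : ℕ → G) {y : ℕ} (hy : 2 ≤ y) (n : ℕ) : ∀ (V : Type) [AddCommGroup V] [Module ℚ V]
    [Module.Finite ℚ V] (ρ : Representation ℚ G V), finrank ℚ V = n → ∀ T : Finset ℕ,
    (∀ p ∈ T, y ≤ p ∧ Ac ρ (x p) p) → T.card * (y - 1) ≤ n := by
  induction n using Nat.strong_induction_on with
  | _ n ih =>
  intro V _ _ _ ρ hn T hT
  by_cases h : ∀ p ∈ T, ∀ q : ℚ, (∃ v, v ≠ 0 ∧ zz ρ (x p) p v = q • v) →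
      ∀ v, zz ρ (x p) p v = q • v
  · have key : ∀ p, ∃ b, p ∈ T → 1 ≤ b ∧ b * (p - 1) ≤ n ∧ n < b * (p - 1 + 1) := fun p => by
      by_cases hp : p ∈ T
      swap
      · exact ⟨0, fun h => absurd h hp⟩
      obtain ⟨-, h1, h2, q, h3, v, h4, h5⟩ := hT p hp
      obtain ⟨b, hb⟩ := rank_eq h1 h2
      have e := scal h2 (h p hp q ⟨v, h4, h5⟩)
      have n0 : 0 < finrank ℚ V := finrank_pos_iff_exists_ne_zero.2 ⟨v, h4⟩
      have h6 : p * finrank ℚ (fx ρ (x p)) < finrank ℚ V := by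
        have := mul_lt_mul_of_pos_right h3 (Nat.cast_pos.2 n0)
        rw [e] at this
        exact_mod_cast lt_of_mul_lt_mul_left this (Nat.cast_nonneg _)
      obtain ⟨r, rfl⟩ : ∃ r, p = r + 1 := ⟨p - 1, (Nat.sub_add_cancel h1.pos).symm⟩
      rw [hn, Nat.add_sub_cancel] at hb
      rw [hn] at h6
      have h7 : finrank ℚ (fx ρ (x (r + 1))) < b := lt_of_mul_lt_mul_left (a := r) (by nlinarith)
        (Nat.zero_le _)
      exact ⟨b, fun _ => ⟨by omega, by rw [Nat.add_sub_cancel]; omega, by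
        rw [Nat.add_sub_cancel]; nlinarith⟩⟩
    choose b hb using key
    have h1 : T.card ≤ (Finset.Icc 1 (n / (y - 1))).card :=
      Finset.card_le_card_of_injOn b (fun p hp => Finset.mem_coe.2 (Finset.mem_Icc.2 ⟨(hb p hp).1,
        (Nat.le_div_iff_mul_le (by omega)).2 ((Nat.mul_le_mul_left _
          (Nat.sub_le_sub_right (hT p hp).1 1)).trans (hb p hp).2.1)⟩)) fun p hp q hq e => by
        have a1 := lt_of_mul_lt_mul_left ((hb p hp).2.1.trans_lt (e ▸ (hb q hq).2.2)) (Nat.zero_le _)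
        have a2 := lt_of_mul_lt_mul_left ((hb q hq).2.1.trans_lt (e ▸ (hb p hp).2.2)) (Nat.zero_le _)
        have := (hT p hp).1
        have := (hT q hq).1
        omega
    rw [Nat.card_Icc, Nat.add_sub_cancel] at h1
    exact (Nat.mul_le_mul_right _ h1).trans (Nat.div_mul_le_self _ _)
  · classical
    push Not at h
    obtain ⟨p₀, -, q₀, ⟨v₀, h1, h2⟩, v₁, h3⟩ := h
    have hU := eig_inv (ρ := ρ) (σ := x p₀) (p := p₀) q₀
    have m0 := End.mem_eigenspace_iff.2 h2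
    have m1 := End.mem_eigenspace_iff.not.2 h3
    generalize End.eigenspace (zz ρ (x p₀) p₀) q₀ = U at hU m0 m1
    have e := U.finrank_quotient_add_finrank
    have l1 : finrank ℚ U < finrank ℚ V := Submodule.finrank_lt fun h => m1 (h ▸ Submodule.mem_top)
    have l2 : finrank ℚ U ≠ 0 := fun h => h1 (by rwa [Submodule.finrank_eq_zero.1 h] at m0)
    have c1 := ih _ (hn ▸ l1) U (ρ.subrepresentation U hU) rfl
      (T.filter fun p => Ac (ρ.subrepresentation U hU) (x p) p) fun p hp =>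
        ⟨(hT p (Finset.mem_filter.1 hp).1).1, (Finset.mem_filter.1 hp).2⟩
    have c2 := ih _ (by omega) (V ⧸ U) (ρ.quotient U hU) rfl
      (T.filter fun p => ¬Ac (ρ.subrepresentation U hU) (x p) p) fun p hp => by
        obtain ⟨a0, a1, a2, q, a3, v, a4, a5⟩ := hT p (Finset.mem_filter.1 hp).1
        refine ⟨a0, a1, ?_, q, a3, U.mkQ v, fun hv => (Finset.mem_filter.1 hp).2
          ⟨a1, sub_one hU a2, q, a3, ⟨v, (Submodule.Quotient.mk_eq_zero U).1 hv⟩,
            fun h => a4 (congrArg Subtype.val h), Subtype.ext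
              ((zz_int U.subtype (fun _ _ => rfl) _).trans a5)⟩, ?_⟩
        · refine LinearMap.ext fun u => ?_
          obtain ⟨u, rfl⟩ := U.mkQ_surjective u
          exact show U.mkQ (ρ _ u) = _ by rw [a2]; rfl
        · rw [← zz_int (ρ' := ρ) U.mkQ fun _ _ => rfl, a5, map_smul]
    rw [← Finset.card_filter_add_card_filter_not (s := T)
      fun p => Ac (ρ.subrepresentation U hU) (x p) p, add_mul]
    omega

end Count

section Padic

variable {p : ℕ} [hp : Fact p.Prime] {G A : Type} [Group G] [AddCommGroup A] [Module ℤ_[p] A]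
  {ρ : Representation ℤ_[p] G A} {σ : G}

theorem idem {n : Type} [Fintype n] [DecidableEq n] (ε : Matrix n n ℤ_[p]) (h : IsUnit ε.trace) :
    ∃ m, (∀ s, Commute s ε → Commute s m) ∧ ε * m * (ε * m) = ε * m ∧ ε * m ≠ 0 := by
  have : CompactSpace (Matrix n n ℤ_[p]) := inferInstanceAs (CompactSpace (n → n → ℤ_[p]))
  obtain ⟨e, he, h2⟩ := exists_idempotent_in_compact_subsemigroup (M := Matrix n n ℤ_[p])
    (fun r => continuous_mul_const r) (closure (Set.range fun k : ℕ => ε ^ (k + 1)))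
    (Set.range_nonempty _).closure isClosed_closure.isCompact fun x hx y hy =>
      map_mem_closure₂ continuous_mul hx hy (by
        rintro _ ⟨k, rfl⟩ _ ⟨l, rfl⟩
        exact ⟨k + 1 + l, by simp only [← pow_add, add_assoc]⟩)
  have c : IsClosed {m : Matrix n n ℤ_[p] | ∀ s, Commute s ε → Commute s m} := by
    simp only [Set.ofPred_forall]
    exact isClosed_iInter fun s => isClosed_iInter fun _ =>
      isClosed_eq (continuous_const_mul s) (continuous_mul_const s)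
  obtain ⟨m, hm, rfl⟩ := closure_minimal (by
    rintro _ ⟨k, rfl⟩
    exact ⟨ε ^ k, fun s hs => hs.pow_right k, (pow_succ' ε k).symm⟩)
    (c.isCompact.image (continuous_const_mul ε)).isClosed he
  refine ⟨m, hm, h2, fun h0 => ?_⟩
  have o : IsOpen {m : Matrix n n ℤ_[p] | ∀ i j, ‖m i j‖ < 1} := by
    simp only [Set.ofPred_forall]
    exact isOpen_iInter_of_finite fun i => isOpen_iInter_of_finite fun j =>
      isOpen_lt (continuous_apply_apply i j).norm continuous_const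
  obtain ⟨_, h3, k, rfl⟩ := mem_closure_iff.1 he _ o (by simp [h0])
  have h4 : IsNilpotent ((PadicInt.toZMod (p := p)).mapMatrix ε) := ⟨k + 1, by
    rw [← map_pow]
    ext i j
    exact RingHom.mem_ker.1 (PadicInt.ker_toZMod.ge (PadicInt.mem_nonunits.2 (h3 i j)))⟩
  have h5 := (Matrix.isNilpotent_trace_of_isNilpotent h4).eq_zero
  rw [RingHom.mapMatrix_apply, ← AddMonoidHom.map_trace] at h5
  exact (h.map _).ne_zero h5

theorem idem' [Module.Finite ℤ_[p] A] [Module.Free ℤ_[p] A] (ε : End ℤ_[p] A)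
    (h : IsUnit (LinearMap.trace _ _ ε)) :
    ∃ m, (∀ s, Commute s ε → Commute s m) ∧ ε * m * (ε * m) = ε * m ∧ ε * m ≠ 0 := by
  classical
  let Φ := LinearMap.toMatrixAlgEquiv (Module.Free.chooseBasis ℤ_[p] A)
  obtain ⟨m, h1, h2, h3⟩ := idem (Φ ε) (by
    rwa [LinearMap.trace_eq_matrix_trace _ (Module.Free.chooseBasis ℤ_[p] A)] at h)
  obtain ⟨m, rfl⟩ := Φ.surjective m
  exact ⟨m, fun s hs => Φ.injective (by rw [map_mul, map_mul]; exact h1 _ (hs.map Φ)),
    Φ.injective (by simpa only [map_mul] using h2), fun h0 => h3 (by rw [← map_mul, h0, map_zero])⟩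

theorem perm {C : Type} [Fintype C] [MulAction G C] (Y : C → A) (L : C → A →ₗ[ℤ_[p]] ℤ_[p])
    (hY : ∀ c, Y (σ • c) = ρ σ (Y c)) (hL : ∀ c v, L (σ • c) (ρ σ v) = L c v)
    (h : ρ (σ ^ p) = 1) {u : A} (hu : nn ρ σ p u = 0) :
    ∃ v, ∑ c, L c u • Y c = ρ σ v - v := by
  obtain ⟨w, hw⟩ := tel0 h hu
  have e : ∀ c, L c w - L (σ • c) w = p * L (σ • c) u := fun c => by
    rw [← hL c w, ← map_sub, hw, map_smul, smul_eq_mul]
  have d : ∀ c, ∃ t, L c w - (L c w).zmodRepr = p * t := fun c => Ideal.mem_span_singleton.1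
    (PadicInt.maximalIdeal_eq_span_p (p := p) ▸ PadicInt.sub_zmodRepr_mem _)
  choose D hD using d
  have e2 : ∀ c, D c - D (σ • c) = L (σ • c) u := fun c => by
    have : (L c w).zmodRepr = (L (σ • c) w).zmodRepr :=
      PadicInt.zmodRepr_unique _ _ (PadicInt.zmodRepr_lt_p _) (by
        rw [PadicInt.maximalIdeal_eq_span_p, Ideal.mem_span_singleton]
        exact ⟨L (σ • c) u + D (σ • c), by linear_combination e c + hD (σ • c)⟩)
    refine mul_left_cancel₀ (Nat.cast_ne_zero.2 hp.out.ne_zero : (p : ℤ_[p]) ≠ 0) ?_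
    have h1 := hD c
    rw [this] at h1
    linear_combination e c - h1 + hD (σ • c)
  refine ⟨∑ c, D c • Y c, ?_⟩
  rw [map_sum, ← Equiv.sum_comp (MulAction.toPerm σ) fun c => L c u • Y c,
    ← Equiv.sum_comp (MulAction.toPerm σ) fun c => D c • Y c, ← Finset.sum_sub_distrib]
  exact Finset.sum_congr rfl fun c _ => by
    rw [MulAction.toPerm_apply, ← e2, sub_smul, map_smul, hY]

variable [Module.Finite ℤ_[p] A] [Module.Free ℤ_[p] A]

theorem hq (hH : RowHQ) (h : ρ (σ ^ p) = 1) (hr : finrank ℤ_[p] A ≤ p * finrank ℤ_[p] (fx ρ σ))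
    (h0 : ∀ y, ρ σ y = y → ∃ u, nn ρ σ p u = y) (v : A) (hv : nn ρ σ p v = 0) :
    ∃ v', v = ρ σ v' - v' := by
  have eN : ∀ v : A, Nm (ρ.asGroupHom σ) p v = nn ρ σ p v := fun v => by
    rw [Nm_apply, nn, LinearMap.sum_apply]
    exact Finset.sum_congr rfl fun i _ => by rw [← map_pow]; rfl
  obtain ⟨-, h1, h2⟩ := hH p hp.out ℤ_[p] A (End ℤ_[p] A)ˣ (ρ.asGroupHom σ) (fx ρ σ)
    ((Nat.card_congr ((Ideal.quotEquivOfEq PadicInt.maximalIdeal_eq_span_p.symm).trans
      PadicInt.residueField).toEquiv).trans (Nat.card_zmod p))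
    (fun x => by rw [← map_pow]; exact show ρ (σ ^ p) x = x by rw [h]; rfl) fun _ => mem_fx
  rw [show hc (A := A) (Df (ρ.asGroupHom σ)) (Nm (ρ.asGroupHom σ) p) = 1 from
    AddSubgroup.relIndex_eq_one.2 fun y hy => (h0 y (sub_eq_zero.1 hy)).imp fun u hu =>
      (eN u).trans hu, one_pow, one_mul] at h2
  have h3 := Nat.le_of_mul_le_mul_right (h2.ge.trans ((Nat.pow_le_pow_right hp.out.pos hr).trans
    (one_mul _).ge)) (pow_pos hp.out.pos _)
  have h4 : hc (A := A) (Nm (ρ.asGroupHom σ) p) (Df (ρ.asGroupHom σ)) = 1 :=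
    le_antisymm ((Nat.le_self_pow (Nat.sub_ne_zero_of_lt hp.out.one_lt) _).trans h3)
      (Nat.pos_of_ne_zero h1)
  obtain ⟨v', e⟩ := AddSubgroup.relIndex_eq_one.1 h4 ((eN v).trans hv)
  exact ⟨v', e.symm⟩

theorem step [Finite G] (h : ρ (σ ^ p) = 1) {P : Subgroup G} (hi : P.index.Coprime p)
    (hP : ∀ g ∈ P, ∀ v, ρ g (nn ρ σ p v) = nn ρ σ p v ∧ nn ρ σ p (ρ g v) = nn ρ σ p v) {y : A}
    (hy : ρ σ y = y) (h0 : ∀ u, nn ρ σ p u ≠ y) :
    ∃ e : End ℤ_[p] A, (∀ g v, e (ρ g v) = ρ g (e v)) ∧ e * e = e ∧ e ≠ 0 ∧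
      ∀ v, nn ρ σ p v = 0 → ∃ v', e v = ρ σ v' - v' := by
  classical
  have p0 : (p : ℤ_[p]) ≠ 0 := Nat.cast_ne_zero.2 hp.out.ne_zero
  have ny := nn_fx (p := p) (mem_fx.2 hy)
  let b := Module.Free.chooseBasis ℤ_[p] (LinearMap.range (nn ρ σ p))
  obtain ⟨i, hu⟩ : ∃ i, IsUnit (b.repr ((nn ρ σ p).rangeRestrict y) i) := by
    by_contra h1
    obtain ⟨⟨_, u, rfl⟩, h2⟩ := dvd_of_repr b _ p fun i => (PadicInt.norm_lt_one_iff_dvd _).1
      (PadicInt.not_isUnit_iff.1 fun h2 => h1 ⟨i, h2⟩)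
    exact h0 u (smul_right_injective A p0 (ny.symm.trans (congrArg Subtype.val h2))).symm
  obtain ⟨l, hl, hu⟩ : ∃ l : A →ₗ[ℤ_[p]] ℤ_[p], (∀ g ∈ P, ∀ v, l (ρ g v) = l v) ∧ IsUnit (l y) :=
    ⟨b.coord i ∘ₗ (nn ρ σ p).rangeRestrict, fun g hg v =>
      congrArg (b.coord i) (Subtype.ext (hP g hg v).2), hu⟩
  have hy' : ∀ g ∈ P, ρ g y = y := fun g hg => smul_right_injective A p0 (by
    have := (hP g hg y).1
    rwa [ny, map_smul] at this)
  have := Fintype.ofFinite (G ⧸ P)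
  have out : ∀ (g : G) (c : G ⧸ P), ∃ k ∈ P, (g • c).out = g * c.out * k := fun g c => by
    obtain ⟨k, hk⟩ := QuotientGroup.mk_out_eq_mul P (g * c.out)
    exact ⟨k, k.2, by rw [← hk, ← MulAction.Quotient.mk_smul_out]; rfl⟩
  obtain ⟨Y, L, hY, hL, hLY⟩ : ∃ (Y : G ⧸ P → A) (L : G ⧸ P → A →ₗ[ℤ_[p]] ℤ_[p]),
      (∀ (g : G) c, Y (g • c) = ρ g (Y c)) ∧ (∀ (g : G) c v, L (g • c) (ρ g v) = L c v) ∧
        ∀ c, L c (Y c) = l y := by
    refine ⟨fun c => ρ c.out y, fun c => l ∘ₗ ρ c.out⁻¹, fun g c => ?_, fun g c v => ?_, fun c => ?_⟩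
    · obtain ⟨k, hk, e⟩ := out g c
      simp only [e, map_mul, End.mul_apply, hy' k hk]
    · obtain ⟨k, hk, e⟩ := out g c
      simp only [e, mul_inv_rev, map_mul, End.mul_apply, LinearMap.comp_apply,
        Representation.inv_self_apply, hl _ (inv_mem hk)]
    · simp
  obtain ⟨ε, hε⟩ : ∃ ε : End ℤ_[p] A, ε = ∑ c, (L c).smulRight (Y c) := ⟨_, rfl⟩
  have ea : ∀ v, ε v = ∑ c, L c v • Y c := fun v => by simp [hε, LinearMap.sum_apply]
  have cm : ∀ g, Commute (ρ g) ε := fun g => LinearMap.ext fun v => by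
    rw [End.mul_apply, End.mul_apply, ea, ea, map_sum,
      ← Equiv.sum_comp (MulAction.toPerm g) fun c => L c (ρ g v) • Y c]
    exact Finset.sum_congr rfl fun c _ => by rw [MulAction.toPerm_apply, hL, hY, map_smul]
  obtain ⟨m, h1, h2, h3⟩ := idem' ε (by
    rw [hε, map_sum]
    simp only [LinearMap.trace_smulRight, hLY, Finset.sum_const, Finset.card_univ, nsmul_eq_mul]
    refine (PadicInt.isUnit_iff.2 (PadicInt.norm_natCast_eq_one_iff.2 ?_)).mul hu
    rw [← Nat.card_eq_fintype_card]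
    exact hi.symm)
  refine ⟨ε * m, fun g v => ?_, h2, h3, fun v hv => ?_⟩
  · exact (LinearMap.congr_fun ((cm g).mul_right (h1 _ (cm g))).eq v).symm
  · rw [End.mul_apply, ea]
    refine perm Y L (hY σ) (hL σ) h ?_
    rw [← nn_int (ρ' := ρ) m fun g v => (LinearMap.congr_fun (h1 _ (cm g)).eq v).symm, hv, map_zero]

omit [Module.Finite ℤ_[p] A] [Module.Free ℤ_[p] A] in
theorem lat [Fintype G] (hH : RowHQ) {P : Subgroup G} (hi : P.index.Coprime p) {f : ℤ_[p][X]}
    (hf : ∀ w : AlgebraicClosure ℚ_[p], aeval w f = 0 →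
      ∃ q : ℚ, (Fintype.card G : ℚ) ≤ q ∧ w = q) (n : ℕ) :
    ∀ (A : Type) [AddCommGroup A] [Module ℤ_[p] A] [Module.Finite ℤ_[p] A] [Module.Free ℤ_[p] A]
      (ρ : Representation ℤ_[p] G A), finrank ℤ_[p] A = n → ρ (σ ^ p) = 1 →
      (∀ g ∈ P, ∀ v, ρ g (nn ρ σ p v) = nn ρ σ p v ∧ nn ρ σ p (ρ g v) = nn ρ σ p v) →
      aeval (zz ρ σ p) f = 0 → ∀ v, nn ρ σ p v = 0 → ∃ v', v = ρ σ v' - v' := by
  induction n using Nat.strong_induction_on with
  | _ n ih =>
  intro A _ _ _ _ ρ hn h hP h0 v hv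
  by_cases hy : ∀ y, ρ σ y = y → ∃ u, nn ρ σ p u = y
  · exact hq hH h (star h h0 hf) hy v hv
  push Not at hy
  obtain ⟨y, hy, hy'⟩ := hy
  obtain ⟨e, h1, h2, h3, h4⟩ := step h hi hP hy hy'
  have hW : ∀ g, LinearMap.ker e ≤ (LinearMap.ker e).comap (ρ g) := fun g u hu => by
    rw [Submodule.mem_comap, LinearMap.mem_ker, h1, LinearMap.mem_ker.1 hu, map_zero]
  have r1 := (LinearMap.ker e).finrank_quotient_add_finrank
  rw [e.quotKerEquivRange.finrank_eq] at r1
  have r2 : finrank ℤ_[p] (LinearMap.range e) ≠ 0 := fun h =>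
    h3 (LinearMap.range_eq_bot.1 (Submodule.finrank_eq_zero.1 h))
  have iN := nn_int (σ := σ) (p := p) (ρ := ρ) (ρ' := ρ.subrepresentation _ hW)
    (Submodule.subtype _) fun _ _ => rfl
  obtain ⟨v₁, e1⟩ := h4 v hv
  obtain ⟨v₂, e2⟩ := ih _ (by omega) _ (ρ.subrepresentation _ hW) rfl (sub_one hW h)
    (fun g hg u => ⟨Subtype.ext ((congrArg (ρ g) (iN u)).trans ((hP g hg u).1.trans (iN u).symm)),
      Subtype.ext ((iN _).trans ((hP g hg u).2.trans (iN u).symm))⟩)
    (LinearMap.ext fun u => Subtype.ext ((aeval_int (Submodule.subtype _)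
      (zz_int _ fun _ _ => rfl) f u).trans (by rw [h0]; rfl)))
    ⟨v - e v, by rw [LinearMap.mem_ker, map_sub, ← End.mul_apply, h2, sub_self]⟩
    (Subtype.ext ((iN _).trans (show nn ρ σ p (v - e v) = 0 by
      rw [map_sub, ← nn_int (ρ' := ρ) e h1, hv, map_zero, sub_zero])))
  have e3 : v - e v = ρ σ v₂ - v₂ := congrArg Subtype.val e2
  exact ⟨v₁ + v₂, by rw [map_add, add_sub_add_comm, ← e1, ← e3, add_sub_cancel]⟩

theorem appr {M : Type} [AddCommGroup M] (v : ℤ_[p] ⊗[ℤ] M) :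
    ∃ (y : M) (s : ℤ_[p] ⊗[ℤ] M), v = 1 ⊗ₜ y + (p : ℤ_[p]) • s := by
  induction v with
  | zero => exact ⟨0, 0, by simp⟩
  | add a b ha hb =>
    obtain ⟨y, s, rfl⟩ := ha
    obtain ⟨z, t, rfl⟩ := hb
    exact ⟨y + z, s + t, by rw [tmul_add, smul_add, add_add_add_comm]⟩
  | tmul c m =>
    obtain ⟨t, ht⟩ := Ideal.mem_span_singleton.1
      (PadicInt.maximalIdeal_eq_span_p (p := p) ▸ PadicInt.sub_zmodRepr_mem c)
    exact ⟨(c.zmodRepr : ℤ) • m, t ⊗ₜ m, by
      rw [← smul_tmul, smul_tmul', smul_eq_mul, ← ht, ← add_tmul]; simp⟩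

theorem lat0 [Fintype G] (hH : RowHQ) {P : Subgroup G} (hi : P.index.Coprime p) {f : ℤ[X]}
    (hf : ∀ w : AlgebraicClosure ℚ_[p], aeval w f = 0 →
      ∃ q : ℚ, (Fintype.card G : ℚ) ≤ q ∧ w = q) {M : Type} [AddCommGroup M] [Module.Finite ℤ M]
    [Module.Free ℤ M] (ρ : Representation ℤ G M) (h : ρ (σ ^ p) = 1)
    (hP : ∀ g ∈ P, ∀ v, ρ g (nn ρ σ p v) = nn ρ σ p v ∧ nn ρ σ p (ρ g v) = nn ρ σ p v)
    (h0 : aeval (zz ρ σ p) f = 0) (m : M) (hm : nn ρ σ p m = 0) : ∃ m', m = ρ σ m' - m' := by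
  obtain ⟨v, hv⟩ := lat (σ := σ) hH hi (f := f.map (algebraMap ℤ ℤ_[p]))
    (fun w hw => hf w (by rwa [aeval_map_algebraMap] at hw)) _ _ (bc ℤ_[p] ρ) rfl (bc_one h)
    (fun g hg v => by
      rw [nn_bc, bc_apply, ← End.mul_apply, ← End.mul_apply, ← map_mul, ← map_mul,
        show ρ g * nn ρ σ p = nn ρ σ p from LinearMap.ext fun v => (hP g hg v).1,
        show nn ρ σ p * ρ g = nn ρ σ p from LinearMap.ext fun v => (hP g hg v).2]
      exact ⟨rfl, rfl⟩)
    (by rw [zz_bc, aeval_bc h0]) (1 ⊗ₜ m)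
    (by rw [nn_bc]; exact show (1 : ℤ_[p]) ⊗ₜ[ℤ] nn ρ σ p m = 0 by rw [hm, tmul_zero])
  obtain ⟨y, s, rfl⟩ := appr v
  have e : (1 : ℤ_[p]) ⊗ₜ[ℤ] (m - (ρ σ y - y)) = (p : ℤ_[p]) • (bc ℤ_[p] ρ σ s - s) := by
    rw [tmul_sub, tmul_sub, hv, map_add, map_smul, smul_sub,
      show bc ℤ_[p] ρ σ (1 ⊗ₜ y) = 1 ⊗ₜ ρ σ y from rfl]
    abel
  let b := Module.Free.chooseBasis ℤ M
  obtain ⟨u, hu⟩ := dvd_of_repr b (m - (ρ σ y - y)) p fun i => by
    have := congrArg (fun t => (b.baseChange ℤ_[p]).repr t i) e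
    simp only [Basis.baseChange_repr_tmul, map_smul, Finsupp.smul_apply, smul_eq_mul, zsmul_eq_mul,
      mul_one] at this
    exact (PadicInt.norm_int_lt_one_iff_dvd _).1 ((PadicInt.norm_lt_one_iff_dvd _).2 ⟨_, this⟩)
  obtain ⟨w, hw⟩ := tel0 h (u := u)
    (smul_right_injective M (Nat.cast_ne_zero.2 hp.out.ne_zero : (p : ℤ) ≠ 0) (by
      simp only [← map_smul, ← hu, smul_zero]
      rw [map_sub, hm, nn_df h, sub_zero]))
  exact ⟨y + w, by rw [map_add, add_sub_add_comm, hw, ← hu, add_sub_cancel]⟩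

end Padic

/-- the permutation lattice -/
noncomputable def pr (G X : Type) [Group G] [MulAction G X] : Representation ℤ G (X →₀ ℤ) where
  toFun g := Finsupp.lmapDomain ℤ ℤ (g • ·)
  map_one' := by ext; simp
  map_mul' _ _ := by ext; simp [mul_smul]

end E1

open E1 in
theorem rowE1 (hH : RowHQ) : RowE1 := by
  classical
  intro G X _ _ _ _ x
  have := Fintype.ofFinite G
  have rk : finrank ℚ (ℚ ⊗[ℤ] (X →₀ ℤ)) = Fintype.card X := by
    rw [finrank_baseChange, finrank_finsupp_self]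
  refine ⟨(Finset.range (Fintype.card X + 2)).filter fun p => Ac (bc ℚ (pr G X)) (x p) p,
    fun y hy => count x hy _ _ _ rk _ fun p hp => ⟨(Finset.mem_filter.1 hp).2,
      (Finset.mem_filter.1 (Finset.mem_filter.1 hp).1).2⟩, fun p hp hA h P hi hP M hM m hm h0 => ?_⟩
  have : Fact p.Prime := ⟨hp⟩
  have nA : ¬Ac (bc ℚ (pr G X)) (x p) p := fun ha => hA (Finset.mem_filter.2 ⟨by
    have := count x hp.two_le _ _ _ rk {p} (by simpa using ha)
    rw [Finset.card_singleton] at this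
    exact Finset.mem_range.2 (by omega), ha⟩)
  have h1 : pr G X (x p ^ p) = 1 := LinearMap.ext fun v =>
    show Finsupp.mapDomain _ v = v by rw [show (x p ^ p • ·) = id from funext h, Finsupp.mapDomain_id]
  have eN : ∀ v, Nm (x p) p v = nn (pr G X) (x p) p v := fun v => by
    rw [Nm_apply, nn, LinearMap.sum_apply]; rfl
  have hW : ∀ g, M.toIntSubmodule ≤ M.toIntSubmodule.comap (pr G X g) := fun g v hv =>
    hM g trivial v hv
  have iN := nn_int (σ := x p) (p := p) (ρ := pr G X) (ρ' := (pr G X).subrepresentation _ hW)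
    (Submodule.subtype _) fun _ _ => rfl
  simp only [eN] at hP h0
  obtain ⟨m', e⟩ := lat0 (σ := x p) hH hi (f := (zz (pr G X) (x p) p).charpoly) (fun w hw => by
      obtain ⟨q, rfl⟩ := eig_rat (bc_one (S := AlgebraicClosure ℚ_[p]) h1) (w := w) (by
        rwa [End.hasEigenvalue_iff_isRoot_charpoly, zz_bc, LinearMap.charpoly_baseChange, IsRoot,
          eval_map_algebraMap])
      refine ⟨q, not_lt.1 fun hq => nA ⟨hp, bc_one h1, q, hq, ?_⟩, rfl⟩
      obtain ⟨v, hv⟩ := End.HasEigenvalue.exists_hasEigenvector (f := zz (bc ℚ (pr G X)) (x p) p)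
        (μ := q) (by
          rw [End.hasEigenvalue_iff_isRoot_charpoly, zz_bc, LinearMap.charpoly_baseChange, IsRoot,
            eval_map_algebraMap]
          exact (aeval_algebraMap_eq_zero_iff _ q _).1 hw)
      exact ⟨v, hv.2, hv.apply_eq_smul⟩)
    ((pr G X).subrepresentation _ hW) (sub_one hW h1)
    (fun g hg u => ⟨Subtype.ext ((congrArg (pr G X g) (iN u)).trans
      ((hP g hg u).1.trans (iN u).symm)), Subtype.ext ((iN _).trans ((hP g hg u).2.trans (iN u).symm))⟩)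
    (LinearMap.ext fun u => Subtype.ext ((aeval_int (Submodule.subtype _)
      (zz_int _ fun _ _ => rfl) _ u).trans (by rw [LinearMap.aeval_self_charpoly]; rfl)))
    ⟨m, hm⟩ (Subtype.ext ((iN _).trans h0))
  exact ⟨m', m'.2, congrArg Subtype.val e⟩

end Pool.Agent.MP_db5b97_nt.H57
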